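import Pool.Agent.U191.PT.Mix
import Pool.Agent.W458.MF.Geo6

/-!
# Poles of the zeta functions of the products of abelian varieties and unrelated varieties
-/

set_option autoImplicit false

open CategoryTheory AlgebraicGeometry
open scoped TensorProduct

universe u v

namespace Pool.Agent.U191.PT

open Polynomial Pool.Agent.H914 Pool.Agent.H914.VarClass Pool.Agent.H914.VarClass.Obj
  Pool.Agent.H914.WeilCohomology Pool.Agent.H281R3.HT Pool.Agent.W552 Pool.Agent.W484.HS
  Pool.Agent.W534 Pool.Agent.TH132.P Pool.Agent.TH132.A Pool.Agent.Y1.CT Pool.Agent.Y1.SC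
  Pool.Agent.H447

variable {k : Type u} [Field k] {𝒱 : VarClass k} {ops : CycleOps 𝒱}
  {W : WeilCohomology.{u, v} ops} {U : 𝒱.Obj} {p : ℕ} {Φ : FrobSystem W p} {σ : W.K →+* ℂ}

variable {I : Type} {q : ℕ} (hq : 1 < q) {F : I → ℤ[X]} {R : ℂ → Prop} (hR : NoRel F q R)
  (hpow : ∀ (ρ : ℂ) (M : ℕ), 0 < M → (R (ρ ^ M) ↔ R ρ))

include hq hR

/-- The generalised Tate classes on the abelian variety are algebraic. -/
theorem algSpan_of_genT (σ : W.K →+* ℂ) {s m : ℕ} (hs : 0 < s) {A : Polarized 𝒱}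
    (hcard : p ^ (Φ.e A.X * m) = q ^ s)
    (hA : IsAbelianFrobenius W q s F A (W534.iter (Φ.Fr A.X) m)) {i : ℕ}
    {z : W.H A.X} (hz : z ∈ genT Φ A.X i) : z ∈ algSpan W A.X := by
  classical
  set f := W534.iter (Φ.Fr A.X) m with hf
  set Rt := {z : W.K // ∃ i, aeval z (F i) = 0} with hRt
  obtain ⟨t, ht, hz'⟩ := (mem_genT Φ).1 hz
  obtain ⟨⟨n, hn⟩, hzg⟩ := (mem_genTate Φ).1 (genTate_mono' Φ t m i hz')
  obtain ⟨r, b, hb⟩ := exists_list_basis (W.map f) (fun z : Rt => (z : W.K) ^ s)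
    (W.gr A.X 1) (eigen_span hA) hA.generated
  choose L hL hLb using hb
  set α : Fin r → W.K := fun t => ((L t).map (fun e => (e.2 : W.K) ^ s)).prod with hαdef
  have hα : ∀ t, W.map f (b t) = α t • b t := by
    intro t
    rw [hLb]
    exact Pool.Agent.W484.HS.map_list_prod (W.map f) (fun z : Rt => (z : W.K) ^ s) (L t)
      fun e he => (hL t e he).2
  set μ : W.K := (card Φ A.X (m * t) : W.K) ^ i with hμ
  have hμQ : μ = (((q : W.K) ^ s) ^ (i : ℤ)) ^ t := by
    rw [hμ, W534.card, ← mul_assoc, pow_mul, hcard]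
    push_cast
    rw [zpow_natCast, pow_right_comm]
  have hq0 : (q : W.K) ≠ 0 := Nat.cast_ne_zero.2 (by omega)
  have h1 : ∀ (n : ℕ) (j : Fin r), ((frob Φ A.X (m * t) -
      μ • (1 : Module.End W.K (W.H A.X))) ^ n) (b j) = (α j ^ t - μ) ^ n • b j := by
    intro n j
    induction n with
    | zero => simp
    | succ n ih =>
      rw [pow_succ', Module.End.mul_apply, ih, map_smul, LinearMap.sub_apply,
        eig_pow (hα j) t, LinearMap.smul_apply, Module.End.one_apply, ← sub_smul, smul_smul,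
        pow_succ]
  have h2 : ∀ j, (α j ^ t - μ) ^ n * b.repr z j = 0 := by
    have h3 : ∑ j, ((α j ^ t - μ) ^ n * b.repr z j) • b j = 0 := by
      rw [← hn]
      conv_rhs => rw [← b.sum_repr z]
      rw [map_sum]
      refine Finset.sum_congr rfl fun j _ => ?_
      rw [map_smul, h1, smul_smul, mul_comm]
    intro j
    exact Fintype.linearIndependent_iff.1 b.linearIndependent _ h3 j
  rw [← b.sum_repr z]
  refine Submodule.sum_mem _ fun j _ => ?_
  by_cases hj : b.repr z j = 0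
  · rw [hj, zero_smul]
    exact Submodule.zero_mem _
  refine Submodule.smul_mem _ _ ?_
  have h3 : α j ^ t = μ := by
    rcases mul_eq_zero.1 (h2 j) with h | h
    · exact sub_eq_zero.1 (by_contra fun h0 => pow_ne_zero n h0 h)
    · exact absurd h hj
  rw [hLb j]
  refine list_mem (W.map f) (fun z : Rt => (z : W.K) ^ s) ((q : W.K) ^ s) 1
    (pow_ne_zero _ hq0) (exactPair_sigma hR σ hs 1 (by rw [map_one]; exact hR.one))
    (algSpan W A.X) one_mem_algSpan
    (fun a ha b hb => mul_mem_algSpan ha hb) (W.gr A.X 1 : Set (W.H A.X)) ?_ ?_ (L j).length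
    (i : ℤ) t ht (L j) rfl (hL j) ?_
  · intro a ha b hb
    rw [W.comm ha hb]
    simp
  · intro a ha b hb x y hx hy hxy
    refine hA.tate _ (W.mul_mem ha hb) ?_
    rw [map_mul, hx, hy, smul_mul_smul_comm, hxy]
  · rw [mul_one, ← hμQ]
    exact h3

theorem genT_abelian (σ : W.K →+* ℂ) {s m : ℕ} (hs : 0 < s) {A : Polarized 𝒱}
    (hcard : p ^ (Φ.e A.X * m) = q ^ s)
    (hA : IsAbelianFrobenius W q s F A (W534.iter (Φ.Fr A.X) m)) (i : ℕ) :
    genT Φ A.X i = spanCycles W A.X (i : ℕ) := by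
  refine le_antisymm (fun z hz => ?_) (span_le_genT Φ A.X i)
  obtain ⟨t, ht, hz'⟩ := (mem_genT Φ).1 hz
  exact Pool.Agent.W458.MF.spanCycles_of_alg (algSpan_of_genT hq hR σ hs hcard hA hz)
    ((mem_genTate Φ).1 hz').2

end Pool.Agent.U191.PT
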