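import Pool.Agent.TH132.P.Defs
import Pool.Agent.Y1.SC.Defs

/-!
# Poles of the zeta functions of the products of abelian varieties and unrelated varieties:
definitions
-/

set_option autoImplicit false

open CategoryTheory AlgebraicGeometry

universe u v

namespace Pool.Agent.U191.PT

open Polynomial Pool.Agent.H914 Pool.Agent.H914.VarClass Pool.Agent.H914.VarClass.Obj
  Pool.Agent.H914.WeilCohomology Pool.Agent.H281R3.HT Pool.Agent.W552 Pool.Agent.W484.HS
  Pool.Agent.W534 Pool.Agent.TH132.P Pool.Agent.Y1.CT

/-- The eigenvalues of the Frobenius endomorphism `Φ.Fr U` on the cohomology of `U`, considered as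
complex numbers by `σ`, are unrelated to the fields `K i`. -/
def FrobUnrelated {k : Type u} [Field k] {𝒱 : VarClass k} {ops : CycleOps 𝒱}
    {W : WeilCohomology.{u, v} ops} {p : ℕ} (Φ : FrobSystem W p) (σ : W.K →+* ℂ) {I : Type}
    (K : I → Type) [∀ i, Field (K i)] (U : 𝒱.Obj) : Prop :=
  ∀ ρ : W.K, Module.End.HasEigenvalue (W.map (Φ.Fr U)).toLinearMap ρ → Unrelated K (σ ρ)

/-- `PoleTimes K q F`: the following holds for every algebraically closed field `k`, every class
`𝒱` of smooth projective varieties over `k` closed under products, every Weil cohomology `W` with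
algebraically closed coefficient field, an embedding `σ` of this field into `ℂ`, and a system `Φ` of
Frobenius endomorphisms of all varieties of the class (relative to powers of `p`) satisfying the
Riemann hypothesis, and every polarized `A` such that the `m`-th iterate of `Φ.Fr A` is the Frobenius
endomorphism, relative to the field with `q ^ s` elements, of an abelian variety of type `F`
(`IsAbelianFrobenius`):

* the formula of Tate holds for `A` in all codimensions, and there are cycles on `A` of each
  codimension which are not numerically trivial;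
* for **every** variety `U` whose Frobenius eigenvalues are unrelated to the fields `K i`, with the
  defects `δ j` in the formula of Tate in codimension `j`, and all `c ≤ dim (A × U)`: the rank of
  the cycles of codimension `c` on `A × U` modulo numerical equivalence is the sum over `i + j = c`
  of the products of the ranks for `A` in codimension `i` and for `U` in codimension `j`; the
  defect of `A × U` in codimension `c` is the sum over `i + j = c` of the products of the rank for
  `A` in codimension `i` and of `δ j`; and the formula of Tate holds for `A × U` in codimension `c`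
  if and only if it holds for `U` in codimension `j` for all `i + j = c`, `i ≤ dim A`,
  `j ≤ dim U`. -/
def PoleTimes {I : Type} (K : I → Type) [∀ i, Field (K i)] (q : ℕ) (F : I → ℤ[X]) : Prop :=
  ∀ (k : Type) [Field k] [IsAlgClosed k] (𝒱 : VarClass k) (ops : CycleOps 𝒱)
    (W : WeilCohomology.{0, 0} ops) [IsAlgClosed W.K] (σ : W.K →+* ℂ) (p : ℕ)
    (Φ : FrobSystem W p), 1 < p → (∀ Z : 𝒱.Obj, RiemannHyp Φ σ Z) →
    ∀ (A : Polarized 𝒱) (s m : ℕ), 0 < s → 0 < m → p ^ (Φ.e A.X * m) = q ^ s →
      IsAbelianFrobenius W q s F A (W534.iter (Φ.Fr A.X) m) →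
      (∀ i ≤ A.X.dim, 0 < numRank ops A.X i ∧ PoleFormula Φ σ A.X i) ∧
      ∀ U : 𝒱.Obj, FrobUnrelated Φ σ K U →
        ∃ δ : ℕ → ℕ, (∀ j ≤ U.dim, PoleDefect Φ σ U j (δ j)) ∧ ∀ c ≤ (A.X.prod U).dim,
          numRank ops (A.X.prod U) c = conv A.X.dim U.dim (numRank ops A.X) (numRank ops U) c ∧
          PoleDefect Φ σ (A.X.prod U) c (conv A.X.dim U.dim (numRank ops A.X) δ c) ∧
          (PoleFormula Φ σ (A.X.prod U) c ↔
            ∀ i ≤ A.X.dim, ∀ j ≤ U.dim, i + j = c → PoleFormula Φ σ U j)

end Pool.Agent.U191.PT
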