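import Pool.Agent.U191.PT.Main

/-!
# The defects in the formula of Tate for the products of abelian varieties and unrelated varieties:
the theorem
-/

set_option autoImplicit false

open CategoryTheory AlgebraicGeometry
open scoped TensorProduct

universe u v

namespace Pool.Agent.U191.PT

open Polynomial Pool.Agent.H914 Pool.Agent.H914.VarClass Pool.Agent.H914.VarClass.Obj
  Pool.Agent.H914.WeilCohomology Pool.Agent.H281R3.HT Pool.Agent.W552 Pool.Agent.W484.HS
  Pool.Agent.W534 Pool.Agent.TH132.P Pool.Agent.TH132.A Pool.Agent.Y1.CT Pool.Agent.Y1.SC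
  Pool.Agent.H447

variable {k : Type u} [Field k] {𝒱 : VarClass k} {ops : CycleOps 𝒱}
  {W : WeilCohomology.{u, v} ops} {U : 𝒱.Obj} {p : ℕ} {Φ : FrobSystem W p} {σ : W.K →+* ℂ}

/-- On a polarized variety there are cycles of each codimension which are not numerically
trivial. -/
theorem numRank_pos (W : WeilCohomology.{u, v} ops) {A : Polarized 𝒱} (hD : A.X.IsCyc 1 A.D)
    (hdeg : 0 < A.X.V.degCycle (divPow ops A.D A.X.dim A.X.V.fundCycle)) {i : ℕ}
    (hi : i ≤ A.X.dim) : 0 < numRank ops A.X i := by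
  rw [numRank_eq (W := W) hi]
  by_contra h0
  have h1 : kRank W A.X i (A.X.dim - i) = 0 := by omega
  rw [kRank, Submodule.finrank_eq_zero, LinearMap.range_eq_bot] at h1
  have hc : ∀ j, A.X.IsCyc j (divPow ops A.D j A.X.V.fundCycle) := by
    intro j
    have h2 := divPow_mem (ops := ops) hD j (SmVar.fundCycle_mem A.X.V)
    rwa [zero_add] at h2
  have hx : ∀ j, W.cl A.X A.D ^ j ∈ spanCycles W A.X (j : ℕ) := by
    intro j
    have h3 := cl_divPow (W := W) A.D j A.X.V.fundCycle
    rw [W.cl_fund, mulLeft_pow_apply, mul_one] at h3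
    rw [← h3]
    exact mem_span_cl (hc j)
  have h2 := congrArg (fun g => g ⟨_, hx i⟩ ⟨_, hx (A.X.dim - i)⟩) h1
  have h3 : W.tr A.X (W.cl A.X A.D ^ i * W.cl A.X A.D ^ (A.X.dim - i)) = 0 := h2
  rw [← pow_add, show i + (A.X.dim - i) = A.X.dim by omega] at h3
  have h4 := W.tr_cl (hc A.X.dim)
  rw [cl_divPow, W.cl_fund, mulLeft_pow_apply, mul_one, h3] at h4
  exact hdeg.ne (by exact_mod_cast h4)

variable {I : Type} {q : ℕ} (hq : 1 < q) {F : I → ℤ[X]} {R : ℂ → Prop} (hR : NoRel F q R)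
  (hpow : ∀ (ρ : ℂ) (M : ℕ), 0 < M → (R (ρ ^ M) ↔ R ρ))

include hq hR

/-- The formula of Tate for the abelian variety. -/
theorem poleFormula_abelian (hp : 1 < p) (hRH : ∀ Z : 𝒱.Obj, RiemannHyp Φ σ Z)
    {s m : ℕ} (hs : 0 < s) {A : Polarized 𝒱} (hcard : p ^ (Φ.e A.X * m) = q ^ s)
    (hA : IsAbelianFrobenius W q s F A (W534.iter (Φ.Fr A.X) m)) {i : ℕ} (hi : i ≤ A.X.dim) :
    PoleFormula Φ σ A.X i := by
  have hD : HomEqNum W A.X := homEqNum_abelian hq hR hs hA
  have h1 : PoleDefect Φ σ A.X i 0 := by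
    refine poleDefect_of hp (hRH _) hi ?_
    rw [genT_abelian hq hR σ hs hcard hA, numRank_of_D hD hi, add_zero]
  exact (poleFormula_iff_of h1).2 rfl

include hpow

/-- **The formula for the defects of the product.** -/
theorem defects_prod [IsAlgClosed W.K] (hp : 1 < p) (hRH : ∀ Z : 𝒱.Obj, RiemannHyp Φ σ Z)
    {s m : ℕ} (hs : 0 < s) (hm : 0 < m) {A : Polarized 𝒱} (hcard : p ^ (Φ.e A.X * m) = q ^ s)
    (hA : IsAbelianFrobenius W q s F A (W534.iter (Φ.Fr A.X) m))
    (hU : ∀ ρ : W.K, Module.End.HasEigenvalue (W.map (Φ.Fr U)).toLinearMap ρ → R (σ ρ)) :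
    ∃ δ : ℕ → ℕ, (∀ j ≤ U.dim, PoleDefect Φ σ U j (δ j)) ∧ ∀ c ≤ (A.X.prod U).dim,
      numRank ops (A.X.prod U) c = conv A.X.dim U.dim (numRank ops A.X) (numRank ops U) c ∧
      PoleDefect Φ σ (A.X.prod U) c (conv A.X.dim U.dim (numRank ops A.X) δ c) ∧
      (PoleFormula Φ σ (A.X.prod U) c ↔
        ∀ i ≤ A.X.dim, ∀ j ≤ U.dim, i + j = c → PoleFormula Φ σ U j) := by
  have hD : HomEqNum W A.X := homEqNum_abelian hq hR hs hA
  obtain ⟨κ, _, _, e, b, d, h⟩ := exists_hFam hD
  have hmix : ∀ c, ∀ z ∈ genT Φ (A.X.prod U) c, z ∈ mixSpan W A.X U := fun c z hz =>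
    mem_mix_of_genT (σ := σ) hq hR hpow hs hm hcard hA hU hz
  have hS : ∀ z, AS W (A.X.prod U) z → z ∈ tens W A.X U := by
    intro z hz
    refine mem_tens hD hz ?_
    refine AS.ind (p := fun z => z ∈ mixSpan W A.X U) ?_
      (fun x y hx hy => Submodule.add_mem _ hx hy) hz
    intro c x hx
    exact hmix c _ (span_le_genT Φ _ c (alg_mem_span hx))
  -- the ranks
  have hrank : ∀ c ≤ (A.X.prod U).dim, numRank ops (A.X.prod U) c =
      conv A.X.dim U.dim (numRank ops A.X) (numRank ops U) c := by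
    intro c hc
    have h1 := finrank_nul (W := W) (Z := A.X.prod U) c
    rw [← numRank_eq (W := W) hc, h.nul_eq hS hc, h.span_eq hS,
      h.finrank_combs' hD (fun j hj => nul_bot hj),
      h.finrank_combs' hD (fun j hj => spanCycles_bot hj)] at h1
    have h2 : conv A.X.dim U.dim (numRank ops A.X)
        (fun j => Module.finrank W.K (spanCycles W U (j : ℕ))) c =
        conv A.X.dim U.dim (numRank ops A.X)
          (fun j => numRank ops U j + Module.finrank W.K (nul W U j)) c :=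
      conv_congr (fun _ _ => rfl) fun j hj => by
        rw [numRank_eq (W := W) hj]
        exact (finrank_nul (W := W) (Z := U) j).symm
    rw [h2, conv_add] at h1
    exact Nat.add_right_cancel h1
  have hdef : ∀ c ≤ (A.X.prod U).dim, PoleDefect Φ σ (A.X.prod U) c
      (conv A.X.dim U.dim (numRank ops A.X) (defect Φ U) c) := by
    intro c hc
    refine poleDefect_of hp (hRH _) hc ?_
    rw [genT_eq_of_mix h (hmix c), h.finrank_combs' hD (fun j hj => genT_bot hj), hrank c hc,
      ← conv_add]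
    exact conv_congr (fun _ _ => rfl) fun j hj => (numRank_add_defect U hj).symm
  have hU' : ∀ j ≤ U.dim, PoleDefect Φ σ U j (defect Φ U j) := fun j hj =>
    poleDefect_of hp (hRH _) hj (numRank_add_defect U hj).symm
  refine ⟨defect Φ U, hU', fun c hc => ⟨hrank c hc, hdef c hc, ?_⟩⟩
  rw [poleFormula_iff_of (hdef c hc), conv_eq_zero]
  refine forall_congr' fun i => forall_congr' fun hi => forall_congr' fun j =>
    forall_congr' fun hj => forall_congr' fun _ => ?_
  rw [poleFormula_iff_of (hU' j hj)]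
  exact ⟨fun h1 => h1 (numRank_pos W hA.divisor hA.degree hi).ne', fun h1 _ => h1⟩

omit hR hpow hq in
theorem poleTimes {I : Type} {K : I → Type} [∀ i, Field (K i)] {q : ℕ} (hq : 1 < q)
    {F : I → ℤ[X]} (hR : NoRel F q (Unrelated K)) : PoleTimes K q F := by
  intro k _ _ 𝒱 ops W _ σ p Φ hp hRH A s m hs hm hcard hA
  exact ⟨fun i hi => ⟨numRank_pos W hA.divisor hA.degree hi,
    poleFormula_abelian hq hR hp hRH hs hcard hA hi⟩,
    fun U hU => defects_prod hq hR (unrelated_pow_iff K) hp hRH hs hm hcard hA hU⟩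

end Pool.Agent.U191.PT
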