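import Pool.Agent.U191.PT.Abel

/-!
# The defects in the formula of Tate for the products of abelian varieties and unrelated varieties
-/

set_option autoImplicit false

open CategoryTheory AlgebraicGeometry
open scoped TensorProduct

universe u v

namespace Pool.Agent.U191.PT

open Polynomial Pool.Agent.H914 Pool.Agent.H914.VarClass Pool.Agent.H914.VarClass.Obj
  Pool.Agent.H914.WeilCohomology Pool.Agent.H281R3.HT Pool.Agent.W552 Pool.Agent.W484.HS
  Pool.Agent.W534 Pool.Agent.TH132.P Pool.Agent.TH132.A Pool.Agent.Y1.CT Pool.Agent.Y1.SC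
  Pool.Agent.H447

variable {k : Type u} [Field k] {𝒱 : VarClass k} {ops : CycleOps 𝒱}
  {W : WeilCohomology.{u, v} ops} {X U : 𝒱.Obj} {p : ℕ} {Φ : FrobSystem W p} {σ : W.K →+* ℂ}
  {κ : Type} [Fintype κ] [DecidableEq κ] {e b : κ → W.H X} {d : κ → ℕ}

/-- A common level for finitely many algebraic classes. -/
theorem exists_common (h : HFam W X e b d) : ∃ t, 0 < t ∧ ∀ (s : ℕ) (j : κ),
    frob Φ X (s * t) (e j) = ((card Φ X (s * t) : W.K) ^ d j) • e j := by
  choose t ht h1 using fun j => exists_span_eig Φ X (d j)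
  refine ⟨∏ j, t j, Finset.prod_pos fun j _ => ht j, fun s j => ?_⟩
  obtain ⟨r, hr⟩ := Finset.dvd_prod_of_mem t (Finset.mem_univ j)
  rw [hr, show s * (t j * r) = t j * (s * r) by ring]
  exact span_eig_mul Φ (h1 j _ (h.he j)) _

/-- **The generalised Tate classes on the product.** -/
theorem genT_eq_of_mix (h : HFam W X e b d) {c : ℕ}
    (hmix : ∀ z ∈ genT Φ (X.prod U) c, z ∈ mixSpan W X U) :
    genT Φ (X.prod U) c = combs e d (genT Φ U) c := by
  obtain ⟨A, B, B', hA, hB, hB', e1, e2, h1⟩ := exists_levels Φ X U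
  obtain ⟨t0, ht0, h0⟩ := exists_common (Φ := Φ) h
  -- the operator
  have hop : ∀ (s : ℕ) (μ : W.K) (n : ℕ) (y : κ → W.H U),
      ((frob Φ (X.prod U) (A * (s * t0)) - μ • (1 : Module.End W.K (W.H (X.prod U)))) ^ n)
        (∑ j, ext W (e j) (y j)) = ∑ j, ext W (e j)
          ((((card Φ X (B * (s * t0)) : W.K) ^ d j • frob Φ U (B' * (s * t0)) -
            μ • (1 : Module.End W.K (W.H U))) ^ n) (y j)) := by
    intro s μ n
    induction n with
    | zero => intro y; rfl
    | succ n ih =>
      intro y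
      rw [pow_succ, Module.End.mul_apply]
      have h3 : (frob Φ (X.prod U) (A * (s * t0)) - μ • (1 : Module.End W.K (W.H (X.prod U))))
          (∑ j, ext W (e j) (y j)) = ∑ j, ext W (e j)
            (((card Φ X (B * (s * t0)) : W.K) ^ d j • frob Φ U (B' * (s * t0)) -
              μ • (1 : Module.End W.K (W.H U))) (y j)) := by
        rw [map_sum]
        refine Finset.sum_congr rfl fun j _ => ?_
        have h4 := h1 (s * t0) (e j ⊗ₜ[W.K] y j)
        have h5 : kunnethMap (W.map (fst X U)) (W.map (snd X U)) (e j ⊗ₜ[W.K] y j) =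
            ext W (e j) (y j) := rfl
        rw [h5, TensorProduct.map_tmul, show B * (s * t0) = B * s * t0 by ring, h0] at h4
        have h6 : ∀ (y : W.H U), ((card Φ X (B * (s * t0)) : W.K) ^ d j •
            frob Φ U (B' * (s * t0)) - μ • (1 : Module.End W.K (W.H U))) y =
            ((card Φ X (B * (s * t0)) : W.K) ^ d j • frob Φ U (B' * (s * t0))) y + (-μ) • y := by
          intro y
          rw [LinearMap.sub_apply, sub_eq_add_neg, neg_smul]
          rfl
        rw [h6, ext_add_right, ext_smul_right, neg_smul, LinearMap.sub_apply, sub_eq_add_neg, h4]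
        congr 1
        change ext W ((card Φ X (B * s * t0) : W.K) ^ d j • e j) (frob Φ U (B' * (s * t0)) (y j)) = _
        rw [show B * (s * t0) = B * s * t0 by ring, LinearMap.smul_apply, ext_smul_right]
        simp only [H281R3.HT.ext, map_smul, smul_mul_assoc]
      rw [h3, ih]
      refine Finset.sum_congr rfl fun j _ => ?_
      rw [pow_succ, Module.End.mul_apply]
  have hfac : ∀ (s : ℕ) (j : κ), d j ≤ c → ∀ (n : ℕ) (y : W.H U),
      ((((card Φ X (B * (s * t0)) : W.K) ^ d j • frob Φ U (B' * (s * t0)) -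
        ((card Φ (X.prod U) (A * (s * t0)) : W.K) ^ c) • (1 : Module.End W.K (W.H U))) ^ n) y) =
      ((card Φ X (B * (s * t0)) : W.K) ^ d j) ^ n • (((frob Φ U (B' * (s * t0)) -
        ((card Φ U (B' * (s * t0)) : W.K) ^ (c - d j)) • (1 : Module.End W.K (W.H U))) ^ n) y) := by
    intro s j hj n
    have h3 : ((card Φ X (B * (s * t0)) : W.K) ^ d j • frob Φ U (B' * (s * t0)) -
        ((card Φ (X.prod U) (A * (s * t0)) : W.K) ^ c) • (1 : Module.End W.K (W.H U))) =
        ((card Φ X (B * (s * t0)) : W.K) ^ d j) • (frob Φ U (B' * (s * t0)) -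
        ((card Φ U (B' * (s * t0)) : W.K) ^ (c - d j)) • (1 : Module.End W.K (W.H U))) := by
      rw [smul_sub, smul_smul]
      congr 2
      rw [card_eq e1 (s * t0), ← card_eq e2 (s * t0), card_eq e1 (s * t0), ← pow_add,
        show d j + (c - d j) = c by omega]
    intro y
    rw [h3, _root_.smul_pow]
    rfl
  ext z
  constructor
  · intro hz
    obtain ⟨s, hs, hz'⟩ := (mem_genT Φ).1 hz
    have hz2 := genTate_mono Φ (A * s) t0 c (genTate_mono' Φ s A c hz')
    rw [mul_assoc] at hz2
    obtain ⟨⟨n, hn⟩, hzg⟩ := (mem_genTate Φ).1 hz2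
    have hrep := h.rep (hmix z hz)
    rw [h.mem_combs_iff]
    refine ⟨fun l => ?_, hrep⟩
    have hdl := h.hd l
    by_cases hl : d l ≤ c
    · rw [TH132.P.comp, if_pos hl]
      rw [hrep, hop] at hn
      have h2 := congrArg (cf W (b l)) hn
      rw [h.cf_sum, map_zero, hfac s l hl] at h2
      have h4 : ((card Φ X (B * (s * t0)) : W.K) ^ d l) ^ n ≠ 0 :=
        pow_ne_zero _ (pow_ne_zero _ (card_ne Φ _))
      refine (mem_genT Φ).2 ⟨B' * (s * t0), Nat.mul_pos hB' (Nat.mul_pos hs ht0), ?_⟩
      refine (mem_genTate Φ).2 ⟨⟨n, (smul_eq_zero.1 h2).resolve_left h4⟩, ?_⟩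
      exact (cf_mem (H914.span_gr (h.hb l)) hzg).1 _ (by omega)
    · rw [TH132.P.comp, if_neg hl]
      rw [(cf_mem (H914.span_gr (h.hb l)) hzg).2 (by omega)]
      exact Submodule.zero_mem _
  · intro hz
    obtain ⟨v, hv, rfl⟩ := mem_combs.1 hz
    have hsum : ∑ j, ext W (e j) (v j) = ∑ j, ext W (e j) (v j) := rfl
    refine Submodule.sum_mem _ fun l _ => ?_
    have h2 := hv l
    by_cases hl : d l ≤ c
    · rw [TH132.P.comp, if_pos hl] at h2
      obtain ⟨s, hs, h3⟩ := (mem_genT Φ).1 h2
      have h4 := genTate_mono Φ (B' * s) t0 _ (genTate_mono' Φ s B' _ h3)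
      rw [mul_assoc] at h4
      obtain ⟨⟨n, hn⟩, hvg⟩ := (mem_genTate Φ).1 h4
      refine (mem_genT Φ).2 ⟨A * (s * t0), Nat.mul_pos hA (Nat.mul_pos hs ht0), ?_⟩
      refine (mem_genTate Φ).2 ⟨⟨n, ?_⟩, ?_⟩
      · have h5 := hop s ((card Φ (X.prod U) (A * (s * t0)) : W.K) ^ c) n
          (fun j => if j = l then v l else 0)
        have h6 : ∑ j, ext W (e j) (if j = l then v l else 0) = ext W (e l) (v l) := by
          rw [Finset.sum_eq_single l]
          · rw [if_pos rfl]
          · intro j _ hj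
            rw [if_neg hj, ext_zero_right]
          · intro h
            exact absurd (Finset.mem_univ _) h
        rw [h6] at h5
        rw [h5]
        refine Finset.sum_eq_zero fun j _ => ?_
        by_cases hj : j = l
        · subst hj
          rw [if_pos rfl, hfac s j hl, hn, smul_zero, ext_zero_right]
        · rw [if_neg hj, map_zero, ext_zero_right]
      · have := W.mul_mem (W.map_mem (fst X U) (H914.span_gr (h.he l)))
          (W.map_mem (snd X U) hvg)
        rwa [show 2 * d l + 2 * (c - d l) = 2 * c by omega] at this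
    · rw [TH132.P.comp, if_neg hl] at h2
      rw [(Submodule.mem_bot _).1 h2, ext_zero_right]
      exact Submodule.zero_mem _

end Pool.Agent.U191.PT
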