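import Pool.Agent.TH132.P.Main
import Pool.Agent.Y1.SC.Main
import Pool.Agent.U191.PT.Defs

/-!
# Generalised Tate classes on the product of an abelian variety and an unrelated variety
-/

set_option autoImplicit false

open CategoryTheory AlgebraicGeometry
open scoped TensorProduct

universe u v

namespace Pool.Agent.U191.PT

open Polynomial Pool.Agent.H914 Pool.Agent.H914.VarClass Pool.Agent.H914.VarClass.Obj
  Pool.Agent.H914.WeilCohomology Pool.Agent.H281R3.HT Pool.Agent.W552 Pool.Agent.W484.HS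
  Pool.Agent.W534 Pool.Agent.TH132.P Pool.Agent.TH132.A Pool.Agent.Y1.CT Pool.Agent.Y1.SC
  Pool.Agent.H447

/-- The relations for a field with an embedding into the complex numbers. -/
theorem exactPair_sigma {I : Type} {f : I → ℤ[X]} {q : ℕ} {R : ℂ → Prop} (hR : NoRel f q R)
    {F : Type*} [Field F] (σ : F →+* ℂ) {s : ℕ} (hs : 0 < s) (ρ : F) (hρ : R (σ ρ)) :
    ExactPairK (fun z : {z : F // ∃ i, aeval z (f i) = 0} => (z : F) ^ s) ((q : F) ^ s) ρ := by
  intro n c N hN hn ys hlen hrel hpw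
  have hz : ∀ z : {z : F // ∃ i, aeval z (f i) = 0}, ∃ i, aeval (σ z) (f i) = 0 := by
    rintro ⟨z, i, hi⟩
    refine ⟨i, ?_⟩
    have h2 := Polynomial.hom_eval₂ (f i) (algebraMap ℤ F) σ z
    rw [RingHom.ext_int (σ.comp (algebraMap ℤ F)) (algebraMap ℤ ℂ)] at h2
    have h3 : eval₂ (algebraMap ℤ F) z (f i) = 0 := hi
    rw [h3, map_zero] at h2
    exact h2.symm
  let φ : {z : F // ∃ i, aeval z (f i) = 0} → {z : ℂ // ∃ i, aeval z (f i) = 0} :=
    fun z => ⟨σ z, hz z⟩
  refine hR.pair s hs _ hρ n c N hN hn (ys.map φ) (by rw [List.length_map, hlen]) ?_ ?_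
  · have h4 := congrArg σ hrel
    rw [map_pow, map_mul, _root_.map_list_prod, List.map_map, map_pow, map_zpow₀, map_pow,
      map_natCast] at h4
    rw [List.map_map, ← h4]
    congr 4
    funext z
    change (σ z) ^ s = σ ((z : F) ^ s)
    rw [map_pow]
  · rw [List.pairwise_map]
    refine hpw.imp ?_
    intro a b hab h5
    apply hab
    apply σ.injective
    rw [map_mul, map_pow, map_pow, map_pow, map_natCast]
    exact h5

/-- The powers and the roots of unrelated numbers are unrelated. -/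
theorem unrelated_pow_iff {I : Type} (K : I → Type) [∀ i, Field (K i)] (ρ : ℂ) (M : ℕ)
    (hM : 0 < M) : Unrelated K (ρ ^ M) ↔ Unrelated K ρ := by
  constructor
  · rintro ⟨h0, h⟩
    refine ⟨fun h1 => h0 (by rw [h1, zero_pow hM.ne']), fun i n hn hinv => ?_⟩
    refine h i n hn fun τ ⟨m, hm, hτ⟩ => hinv τ ⟨M * m, Nat.mul_pos hM hm, ?_⟩
    rw [pow_mul]
    exact hτ
  · intro h
    refine ⟨pow_ne_zero _ h.1, fun i n hn hinv => ?_⟩
    refine h.2 i n hn fun τ ⟨m, hm, hτ⟩ => hinv τ ⟨m, hm, ?_⟩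
    rw [← pow_mul, mul_comm, pow_mul, map_pow, hτ]

variable {k : Type u} [Field k] {𝒱 : VarClass k} {ops : CycleOps 𝒱}
  {W : WeilCohomology.{u, v} ops} {U : 𝒱.Obj} {p : ℕ} {Φ : FrobSystem W p} {σ : W.K →+* ℂ}

/-- Products of eigenvectors, with a list of roots. -/
theorem eig_pow {X : 𝒱.Obj} {m : ℕ} {b : W.H X} {α : W.K}
    (hb : W.map (W534.iter (Φ.Fr X) m) b = α • b) (N : ℕ) :
    frob Φ X (m * N) b = α ^ N • b := by
  rw [frob_mul_eq]
  induction N with
  | zero => simp
  | succ N ih =>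
    rw [pow_succ', Module.End.mul_apply, ih, map_smul, frob_apply, hb, smul_smul, pow_succ]

variable {I : Type} {q : ℕ} (hq : 1 < q) {F : I → ℤ[X]} {R : ℂ → Prop} (hR : NoRel F q R)
  (hpow : ∀ (ρ : ℂ) (M : ℕ), 0 < M → (R (ρ ^ M) ↔ R ρ))

include hq hR hpow

/-- **The generalised Tate classes on the product are combinations of products of algebraic
classes with classes on `U`.** -/
theorem mem_mix_of_genT [IsAlgClosed W.K] {s m : ℕ} (hs : 0 < s) (hm : 0 < m) {A : Polarized 𝒱}
    (hcard : p ^ (Φ.e A.X * m) = q ^ s)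
    (hA : IsAbelianFrobenius W q s F A (W534.iter (Φ.Fr A.X) m))
    (hU : ∀ ρ : W.K, Module.End.HasEigenvalue (W.map (Φ.Fr U)).toLinearMap ρ → R (σ ρ)) {c : ℕ}
    {z : W.H (A.X.prod U)} (hz : z ∈ genT Φ (A.X.prod U) c) : z ∈ mixSpan W A.X U := by
  classical
  set f := W534.iter (Φ.Fr A.X) m with hf
  set Rt := {z : W.K // ∃ i, aeval z (F i) = 0} with hRt
  obtain ⟨a, B, B', ha, hB, hB', e1, e2, h1⟩ := exists_levels Φ A.X U
  obtain ⟨t, ht, hz'⟩ := (mem_genT Φ).1 hz
  obtain ⟨⟨n, hn⟩, hzg⟩ := (mem_genTate Φ).1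
    (genTate_mono' Φ t a c hz')
  -- pass to a multiple of the level
  have hz2 : ∃ n : ℕ, ((frob Φ (A.X.prod U) (a * (t * m)) -
      ((card Φ (A.X.prod U) (a * (t * m)) : W.K) ^ c) •
        (1 : Module.End W.K (W.H (A.X.prod U)))) ^ n) z = 0 := by
    have h2 := genTate_mono Φ (a * t) m c (genTate_mono' Φ t a c hz')
    rw [mul_assoc] at h2
    exact ((mem_genTate Φ).1 h2).1
  obtain ⟨n, hn⟩ := hz2
  obtain ⟨r, b, hb⟩ := exists_list_basis (W.map f) (fun z : Rt => (z : W.K) ^ s)
    (W.gr A.X 1) (eigen_span hA) hA.generated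
  obtain ⟨e, he1, he2⟩ := exists_comp (Y := U) b
  choose L hL hLb using hb
  set α : Fin r → W.K := fun t => ((L t).map (fun e => (e.2 : W.K) ^ s)).prod with hαdef
  have hα : ∀ t, W.map f (b t) = α t • b t := by
    intro t
    rw [hLb]
    exact Pool.Agent.W484.HS.map_list_prod (W.map f) (fun z : Rt => (z : W.K) ^ s) (L t)
      fun e he => (hL t e he).2
  set N := B * t with hN
  have hN0 : 0 < N := Nat.mul_pos hB ht
  set M := B' * (t * m) with hM
  have hM0 : 0 < M := Nat.mul_pos hB' (Nat.mul_pos ht hm)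
  have hlev : B * (t * m) = m * N := by rw [hN]; ring
  set μ : W.K := (card Φ (A.X.prod U) (a * (t * m)) : W.K) ^ c with hμ
  have hμQ : μ = (((q : W.K) ^ s) ^ (c : ℤ)) ^ N := by
    rw [hμ, card_eq e1, hlev, W534.card, ← mul_assoc, pow_mul, hcard]
    push_cast
    rw [zpow_natCast, pow_right_comm]
  set G := frob Φ U M with hG
  -- the operator on the components
  have hop : ∀ (w : W.H (A.X.prod U)),
      (frob Φ (A.X.prod U) (a * (t * m)) - μ • (1 : Module.End W.K (W.H (A.X.prod U)))) w =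
        ∑ j, ext W (b j) (((α j ^ N) • G - μ • (1 : Module.End W.K (W.H U))) (e w j)) := by
    intro w
    have h3 : ∀ j (y : W.H U), frob Φ (A.X.prod U) (a * (t * m)) (ext W (b j) y) =
        ext W (b j) ((α j ^ N • G) y) := by
      intro j y
      have h4 := h1 (t * m) (b j ⊗ₜ[W.K] y)
      have h5 : kunnethMap (W.map (fst A.X U)) (W.map (snd A.X U)) (b j ⊗ₜ[W.K] y) =
          ext W (b j) y := rfl
      rw [h5, TensorProduct.map_tmul, hlev, eig_pow (hα j) N] at h4
      rw [h4]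
      change ext W (α j ^ N • b j) (G y) = _
      rw [LinearMap.smul_apply, ext_smul_right]
      simp only [H281R3.HT.ext, map_smul, smul_mul_assoc]
    conv_lhs => rw [he1 w]
    rw [map_sum]
    refine Finset.sum_congr rfl fun j _ => ?_
    have h6 : ∀ (y : W.H U), ((α j ^ N) • G - μ • (1 : Module.End W.K (W.H U))) y =
        (α j ^ N • G) y + (-μ) • y := by
      intro y
      rw [LinearMap.sub_apply, sub_eq_add_neg, neg_smul]
      rfl
    rw [h6, ext_add_right, ext_smul_right, ← h3, neg_smul, LinearMap.sub_apply, sub_eq_add_neg]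
    rfl
  have hcomp : ∀ (n : ℕ) (w : W.H (A.X.prod U)) (j : Fin r),
      e (((frob Φ (A.X.prod U) (a * (t * m)) - μ • (1 : Module.End W.K
        (W.H (A.X.prod U)))) ^ n) w) j =
        (((α j ^ N) • G - μ • (1 : Module.End W.K (W.H U))) ^ n) (e w j) := by
    intro n
    induction n with
    | zero => intro w j; rfl
    | succ n ih =>
      intro w j
      rw [pow_succ, Module.End.mul_apply, ih, hop, pow_succ, Module.End.mul_apply]
      congr 1
      rw [map_sum, Finsupp.finsetSum_apply, Finset.sum_eq_single j]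
      · rw [he2, Finsupp.single_eq_same]
      · intro j' _ hj'
        rw [he2]
        exact Finsupp.single_eq_of_ne hj'.symm
      · intro h
        exact absurd (Finset.mem_univ _) h
  have hQ0 : (q : W.K) ≠ 0 := Nat.cast_ne_zero.2 (by omega)
  rw [he1 z]
  refine Submodule.sum_mem _ fun j _ => ?_
  by_cases hj : e z j = 0
  · rw [hj, ext_zero_right]
    exact Submodule.zero_mem _
  refine ext_mem_mixSpan ?_ _
  have hk : (((α j ^ N) • G - μ • (1 : Module.End W.K (W.H U))) ^ n) (e z j) = 0 := by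
    rw [← hcomp, hn, map_zero]
    rfl
  -- an eigenvector of the operator
  have hev : Module.End.HasEigenvalue (α j ^ N • G) μ := by
    exact Module.End.hasEigenvalue_of_hasGenEigenvalue (k := n) fun h5 => hj <| by
      have h6 : e z j ∈ Module.End.genEigenspace (α j ^ N • G) μ n := by
        rw [Module.End.mem_genEigenspace_nat, LinearMap.mem_ker]
        exact hk
      rw [h5] at h6
      exact (Submodule.mem_bot _).1 h6
  obtain ⟨v, hv⟩ := hev.exists_hasEigenvector
  have hμ0 : μ ≠ 0 := by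
    rw [hμQ]
    exact pow_ne_zero _ (zpow_ne_zero _ (pow_ne_zero _ hQ0))
  have hα0 : α j ^ N ≠ 0 := by
    intro h0
    have h2 := hv.apply_eq_smul
    rw [h0, zero_smul, LinearMap.zero_apply] at h2
    rcases smul_eq_zero.1 h2.symm with h4 | h4
    · exact hμ0 h4
    · exact hv.2 h4
  have h2 : G v = (μ / α j ^ N) • v := by
    have h3 := congrArg (fun z => (α j ^ N)⁻¹ • z) hv.apply_eq_smul
    simp only [LinearMap.smul_apply, smul_smul] at h3
    rw [inv_mul_cancel₀ hα0, one_smul] at h3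
    rw [h3, div_eq_inv_mul]
  have h3 : Module.End.HasEigenvalue ((W.map (Φ.Fr U)).toLinearMap ^ M) (μ / α j ^ N) := by
    rw [← frob_pow_eq]
    exact Module.End.hasEigenvalue_of_hasEigenvector ⟨Module.End.mem_eigenspace_iff.2 h2, hv.2⟩
  have h4 := Module.End.hasEigenvalue_iff_mem_spectrum.1 h3
  rw [spectrum.map_pow_of_pos _ hM0] at h4
  obtain ⟨ρ, hρ, hρM⟩ := h4
  have hρe : Module.End.HasEigenvalue (W.map (Φ.Fr U)).toLinearMap ρ :=
    Module.End.hasEigenvalue_iff_mem_spectrum.2 hρ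
  have hρM : ρ ^ M = μ / α j ^ N := hρM
  -- a root
  obtain ⟨ρ', hρ'⟩ := IsAlgClosed.exists_pow_nat_eq (ρ ^ M) hN0
  have hR' : R (σ ρ') := by
    rw [← hpow _ _ hN0, ← map_pow, hρ', map_pow, hpow _ _ hM0]
    exact hU ρ hρe
  rw [hLb j]
  refine list_mem (W.map f) (fun z : Rt => (z : W.K) ^ s) ((q : W.K) ^ s) ρ'
    (pow_ne_zero _ hQ0) (exactPair_sigma hR σ hs ρ' hR') (algSpan W A.X) one_mem_algSpan
    (fun a ha b hb => mul_mem_algSpan ha hb) (W.gr A.X 1 : Set (W.H A.X)) ?_ ?_ (L j).length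
    (c : ℤ) N hN0 (L j) rfl (hL j) ?_
  · intro a ha b hb
    rw [W.comm ha hb]
    simp
  · intro a ha b hb x y hx hy hxy
    refine hA.tate _ (W.mul_mem ha hb) ?_
    rw [map_mul, hx, hy, smul_mul_smul_comm, hxy]
  · rw [mul_pow, hρ', hρM, ← hμQ]
    exact mul_div_cancel₀ _ hα0

end Pool.Agent.U191.PT
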